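import Pool.Agent.H50.MPb4a25c.Proofs

/-!
# BiLipschitz self-maps of Carnot groups need not permute the left cosets of `[N, N]`

The Heisenberg group over the dual numbers `ℝ[ε]/(ε²)` is a Carnot group of step two without
Heisenberg factor, and it has a (smooth, bijective) self-map which is biLipschitz for every Carnot
metric and which does not permute the left cosets of the second term `N₂ = [N, N]` of the lower
central series.
-/

open scoped Manifold ContDiff

noncomputable section

namespace Pool.Agent.Results.MP_b4a25c_gt.DualHeisenberg

/-- There are a Carnot group `N` of step two, with stratification `V 1, V 2`, without Heisenberg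
factor (not even as an abstract group), and a bijection `F : N → N` which is biLipschitz for every
Carnot metric on `N` (the Carnot distances being finite and separating points) and which does not
permute the left cosets of `N₂ = [N, N]`, the second term of the lower central series (in
Mathlib's indexing, `(⊤ : Subgroup N).lowerCentralSeries 1`). -/
theorem result :
    ∃ (E : Type) (_ : NormedAddCommGroup E) (_ : NormedSpace ℝ E)
      (N : Type) (_ : TopologicalSpace N) (_ : ChartedSpace E N) (_ : Group N)
      (V : ℕ → Submodule ℝ (GroupLieAlgebra 𝓘(ℝ, E) N)),
      IsCarnotGroup 2 V ∧ ¬ HasHeisenbergFactor N ∧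
      ∃ F : N ≃ N, IsBiLipschitzForCarnotMetrics (V 1) F ∧
        ¬ PermutesLeftCosets F ((⊤ : Subgroup N).lowerCentralSeries 1) :=
  ⟨E6, inferInstance, inferInstance, DH, inferInstance, inferInstance, inferInstance, DH.layer,
    DH.isCarnotGroup, DH.not_hasHeisenbergFactor, DH.shearEquiv,
    fun ν hν => ⟨DH.carnotEDist_ne_top ν, DH.carnotEDist_eq_zero_iff ν hν,
      DH.isBiLipschitz_shearEquiv ν hν⟩, DH.not_permutesLeftCosets⟩

end Pool.Agent.Results.MP_b4a25c_gt.DualHeisenberg
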